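import Pool.Agent.W544.PG.Defs4
import Pool.Agent.W74.PG.HCT
import Pool.Agent.W101.PG.Hk

/-!
# PG3-DIA: the Lie algebra of the Hodge group is block-diagonal
-/

set_option autoImplicit false

open Matrix Finset Module

namespace Pool.Agent.W138.PG

open Pool.Agent.W544.PG

theorem dia : S_dia := by
  intro n r T c hQ hx y hy a b hab
  classical
  set i := c a with hi
  let t : (Fin 2 → Fin n) → ℚ := fun J => if c (J 0) = i then T.Q (J 0) (J 1) else 0
  have hupd0 : ∀ (J : Fin 2 → Fin n) (l : Fin n),
      t (Function.update J 0 l) = if c l = i then T.Q l (J 1) else 0 := by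
    intro J l; simp [t]
  have hupd1 : ∀ (J : Fin 2 → Fin n) (l : Fin n),
      t (Function.update J 1 l) = if c (J 0) = i then T.Q (J 0) l else 0 := by
    intro J l; simp [t]
  have hsk : ∀ p q, ∑ l, T.x l p * (T.Q l q : ℂ) + ∑ l, (T.Q p l : ℂ) * T.x l q = 0 := by
    intro p q
    have := congrFun (congrFun T.skew p) q
    simpa [Matrix.add_apply, Matrix.mul_apply, Matrix.transpose_apply, mC] using this
  have hK : Kil T.x t := by
    intro J
    rw [Fin.sum_univ_two]
    simp only [hupd0, hupd1]
    by_cases h : c (J 0) = i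
    · rw [← hsk (J 0) (J 1)]
      congr 1
      · apply Finset.sum_congr rfl
        intro l _
        by_cases hl : c l = i
        · rw [if_pos hl]
        · have h0 : T.x l (J 0) = 0 := hx l (J 0) (by rw [h]; exact hl)
          rw [h0, zero_mul, zero_mul]
      · apply Finset.sum_congr rfl
        intro l _
        rw [if_pos h, mul_comm]
    · rw [Finset.sum_eq_zero, Finset.sum_eq_zero, add_zero]
      · intro l _
        rw [if_neg h, Rat.cast_zero, mul_zero]
      · intro l _
        by_cases hl : c l = i
        · have h0 : T.x l (J 0) = 0 := hx l (J 0) (by rw [hl]; exact fun e => h e.symm)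
          rw [h0, zero_mul]
        · rw [if_neg hl, Rat.cast_zero, mul_zero]
  have hH : T.IsHodge t := (Pool.Agent.W101.PG.hk n 2 T t).2 hK
  have hKy : Kil y t := hy.2 2 t hH
  have hrow : ∀ p, c p = i → ∑ l, (T.Q p l : ℂ) * y l b = 0 := by
    intro p hp
    have h := hKy ![p, b]
    rw [Fin.sum_univ_two] at h
    simp only [hupd0, hupd1] at h
    rw [Finset.sum_eq_zero, zero_add] at h
    · rw [← h]
      apply Finset.sum_congr rfl
      intro l _
      simp [hp, mul_comm]
    · intro l _
      by_cases hl : c l = i
      · have h0 : T.Q l (![p, b] 1) = 0 := hQ l b (by rw [hl]; exact hab)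
        rw [if_pos hl, h0, Rat.cast_zero, mul_zero]
      · rw [if_neg hl, Rat.cast_zero, mul_zero]
  let w : Fin n → ℂ := fun l => if c l = i then y l b else 0
  have hw : mC T.Q *ᵥ w = 0 := by
    funext p
    show ∑ l, (T.Q p l : ℂ) * w l = 0
    by_cases hp : c p = i
    · rw [← hrow p hp]
      apply Finset.sum_congr rfl
      intro l _
      by_cases hl : c l = i
      · show _ * (if c l = i then y l b else 0) = _
        rw [if_pos hl]
      · have h0 : T.Q p l = 0 := hQ p l (by rw [hp]; exact fun e => hl e.symm)
        rw [h0, Rat.cast_zero, zero_mul, zero_mul]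
    · apply Finset.sum_eq_zero
      intro l _
      show _ * (if c l = i then y l b else 0) = _
      by_cases hl : c l = i
      · have h0 : T.Q p l = 0 := hQ p l (by rw [hl]; exact hp)
        rw [h0, Rat.cast_zero, zero_mul]
      · rw [if_neg hl, mul_zero]
  have hdet : (mC T.Q).det ≠ 0 := by
    have e : (mC T.Q).det = ((T.Q.det : ℚ) : ℂ) := by
      have := (RingHom.map_det (Rat.castHom ℂ) T.Q)
      rw [show (mC T.Q) = (Rat.castHom ℂ).mapMatrix T.Q from rfl, ← this]
      rfl
    rw [e]
    exact_mod_cast Pool.Agent.W74.PG.det_ne T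
  have hw0 := Matrix.eq_zero_of_mulVec_eq_zero hdet hw
  have := congrFun hw0 a
  simpa [w, hi] using this

end Pool.Agent.W138.PG
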